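import Mathlib

set_option autoImplicit false

/-! Comparison trees and the numbers `V n t` of the selection problem. -/

namespace Pool.Agent.H78.SelU

/-- comparison trees with outputs in `β` -/
inductive DT (n : ℕ) (β : Type) : Type
  | ret : β → DT n β
  | ask : Fin n → Fin n → DT n β → DT n β → DT n β

namespace DT

variable {n : ℕ} {β γ : Type}

def eval (σ : Equiv.Perm (Fin n)) : DT n β → β
  | ret b => b
  | ask x y a b => if σ x < σ y then a.eval σ else b.eval σ

def depth : DT n β → ℕ
  | ret _ => 0
  | ask _ _ a b => max a.depth b.depth + 1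

def bind : DT n β → (β → DT n γ) → DT n γ
  | ret b, f => f b
  | ask x y a b, f => ask x y (a.bind f) (b.bind f)

theorem eval_bind (σ : Equiv.Perm (Fin n)) (T : DT n β) (f : β → DT n γ) :
    (T.bind f).eval σ = (f (T.eval σ)).eval σ := by
  induction T with
  | ret b => rfl
  | ask x y a b iha ihb =>
    simp only [bind, eval]
    split_ifs
    · exact iha
    · exact ihb

/-- `OutP P T`: every output of the tree satisfies `P`. -/
def OutP (P : β → Prop) : DT n β → Prop
  | ret b => P b
  | ask _ _ a b => a.OutP P ∧ b.OutP P

theorem depth_bind_le (T : DT n β) (f : β → DT n γ) (P : β → Prop) (hT : T.OutP P) (d : ℕ)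
    (hf : ∀ b, P b → (f b).depth ≤ d) : (T.bind f).depth ≤ T.depth + d := by
  induction T with
  | ret b => simpa [bind, depth] using hf b hT
  | ask x y a b iha ihb =>
    have h1 := iha hT.1
    have h2 := ihb hT.2
    simp only [bind, depth]
    omega

theorem outP_bind (T : DT n β) (f : β → DT n γ) (P : β → Prop) (Q : γ → Prop) (hT : T.OutP P)
    (hf : ∀ b, P b → (f b).OutP Q) : (T.bind f).OutP Q := by
  induction T with
  | ret b => exact hf b hT
  | ask x y a b iha ihb => exact ⟨iha hT.1, ihb hT.2⟩

theorem outP_eval {P : β → Prop} {T : DT n β} (hT : T.OutP P) (σ : Equiv.Perm (Fin n)) :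
    P (T.eval σ) := by
  induction T with
  | ret b => exact hT
  | ask x y a b iha ihb =>
    simp only [eval]
    split_ifs
    · exact iha hT.1
    · exact ihb hT.2

theorem outP_true (T : DT n β) : T.OutP (fun _ => True) := by
  induction T with
  | ret b => trivial
  | ask x y a b iha ihb => exact ⟨iha, ihb⟩

def map (f : β → γ) (T : DT n β) : DT n γ := T.bind (fun b => ret (f b))

theorem eval_map (σ : Equiv.Perm (Fin n)) (T : DT n β) (f : β → γ) :
    (T.map f).eval σ = f (T.eval σ) := by
  simp [map, eval_bind, eval]

theorem depth_map (T : DT n β) (f : β → γ) : (T.map f).depth = T.depth := by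
  induction T with
  | ret b => rfl
  | ask x y a b iha ihb =>
    simp only [map] at iha ihb ⊢
    simp only [bind, depth, iha, ihb]

end DT

open DT

/-- the frozen form of `k comparisons suffice` -/
def Suff (n : ℕ) (t : Fin n) (k : ℕ) : Prop :=
  ∃ (q : List Bool → Fin n × Fin n) (o : List Bool → Fin n),
    ∀ σ : Equiv.Perm (Fin n), ∀ h : List Bool, h.length = k →
      (∀ (i : ℕ) (hi : i < h.length),
        h[i]'hi = decide (σ (q (h.take i)).1 < σ (q (h.take i)).2)) →
      σ (o h) = t

/-- the tree form -/
def TSuff (n : ℕ) (t : Fin n) (k : ℕ) : Prop :=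
  ∃ T : DT n (Fin n), T.depth ≤ k ∧ ∀ σ : Equiv.Perm (Fin n), σ (T.eval σ) = t

section toTree

variable {n : ℕ} (q : List Bool → Fin n × Fin n) (o : List Bool → Fin n)

def mk : ℕ → List Bool → DT n (Fin n)
  | 0, h => ret (o h)
  | k + 1, h => ask (q h).1 (q h).2 (mk k (h ++ [true])) (mk k (h ++ [false]))

theorem depth_mk (k : ℕ) (h : List Bool) : (mk q o k h).depth ≤ k := by
  induction k generalizing h with
  | zero => simp [mk, depth]
  | succ k ih =>
    have h1 := ih (h ++ [true])
    have h2 := ih (h ++ [false])
    simp only [mk, depth]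
    omega

def hist (σ : Equiv.Perm (Fin n)) : ℕ → List Bool → List Bool
  | 0, h => h
  | k + 1, h => hist σ k (h ++ [decide (σ (q h).1 < σ (q h).2)])

theorem eval_mk (σ : Equiv.Perm (Fin n)) (k : ℕ) (h : List Bool) :
    (mk q o k h).eval σ = o (hist q σ k h) := by
  induction k generalizing h with
  | zero => rfl
  | succ k ih =>
    simp only [mk, eval, hist]
    split_ifs with hc
    · rw [ih]; simp [hc]
    · rw [ih]; simp [hc]

def Cons (σ : Equiv.Perm (Fin n)) (h : List Bool) : Prop :=
  ∀ (i : ℕ) (hi : i < h.length),
        h[i]'hi = decide (σ (q (h.take i)).1 < σ (q (h.take i)).2)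

theorem cons_append (σ : Equiv.Perm (Fin n)) (h : List Bool) (hc : Cons q σ h) :
    Cons q σ (h ++ [decide (σ (q h).1 < σ (q h).2)]) := by
  intro i hi
  rw [List.length_append, List.length_singleton] at hi
  rcases Nat.lt_succ_iff_lt_or_eq.1 hi with h1 | h1
  · rw [List.getElem_append_left h1, List.take_append_of_le_length h1.le]
    exact hc i h1
  · subst h1
    rw [List.getElem_append_right (le_refl _), List.take_append_of_le_length (le_refl _)]
    simp

theorem hist_spec (σ : Equiv.Perm (Fin n)) (k : ℕ) (h : List Bool) (hc : Cons q σ h) :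
    (hist q σ k h).length = h.length + k ∧ Cons q σ (hist q σ k h) := by
  induction k generalizing h with
  | zero => exact ⟨rfl, hc⟩
  | succ k ih =>
    have := ih _ (cons_append q σ h hc)
    simp only [hist]
    refine ⟨?_, this.2⟩
    rw [this.1, List.length_append, List.length_singleton]
    ring

end toTree

section ofTree

variable {n : ℕ}

def walk : DT n (Fin n) → List Bool → DT n (Fin n)
  | ret b, _ => ret b
  | ask x y a b, [] => ask x y a b
  | ask _ _ a b, c :: h => if c then walk a h else walk b h

def nodeQ (z : Fin n) : DT n (Fin n) → Fin n × Fin n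
  | ret _ => (z, z)
  | ask x y _ _ => (x, y)

def nodeO (z : Fin n) : DT n (Fin n) → Fin n
  | ret b => b
  | ask _ _ _ _ => z

def qOf (z : Fin n) (T : DT n (Fin n)) (h : List Bool) : Fin n × Fin n := nodeQ z (walk T h)

def oOf (z : Fin n) (T : DT n (Fin n)) (h : List Bool) : Fin n := nodeO z (walk T h)

theorem walk_true (x y : Fin n) (a b : DT n (Fin n)) (h : List Bool) :
    walk (ask x y a b) (true :: h) = walk a h := rfl

theorem walk_false (x y : Fin n) (a b : DT n (Fin n)) (h : List Bool) :
    walk (ask x y a b) (false :: h) = walk b h := rfl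

theorem walk_ask_nil (x y : Fin n) (a b : DT n (Fin n)) :
    walk (ask x y a b) [] = ask x y a b := rfl

theorem walk_ret (b : Fin n) (h : List Bool) : walk (ret b) h = ret b := by
  cases h <;> rfl

theorem oOf_spec (z : Fin n) (T : DT n (Fin n)) (σ : Equiv.Perm (Fin n)) (h : List Bool)
    (hl : T.depth ≤ h.length) (hc : Cons (qOf z T) σ h) : oOf z T h = T.eval σ := by
  induction T generalizing h with
  | ret b => simp [oOf, walk_ret, eval, nodeO]
  | ask x y a b iha ihb =>
    cases h with
    | nil => simp [depth] at hl
    | cons c h =>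
      have h0 := hc 0 (by simp)
      simp only [List.getElem_cons_zero, List.take_zero, qOf, walk_ask_nil, nodeQ] at h0
      have hl' : max a.depth b.depth ≤ h.length := by
        simp only [depth, List.length_cons] at hl
        omega
      by_cases hxy : σ x < σ y
      · have hct : c = true := by rw [h0]; simpa using hxy
        subst hct
        have hca : Cons (qOf z a) σ h := by
          intro i hi
          have := hc (i + 1) (by simpa using hi)
          rw [List.getElem_cons_succ] at this
          rw [this]
          exact decide_eq_decide.2 Iff.rfl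
        have := iha h (by omega) hca
        simp only [oOf, walk_true, eval, if_pos hxy]
        exact this
      · have hct : c = false := by rw [h0]; simpa using hxy
        subst hct
        have hcb : Cons (qOf z b) σ h := by
          intro i hi
          have := hc (i + 1) (by simpa using hi)
          rw [List.getElem_cons_succ] at this
          rw [this]
          exact decide_eq_decide.2 Iff.rfl
        have := ihb h (by omega) hcb
        simp only [oOf, walk_false, eval, if_neg hxy]
        exact this

end ofTree

theorem suff_iff (n : ℕ) (t : Fin n) (k : ℕ) : Suff n t k ↔ TSuff n t k := by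
  constructor
  · rintro ⟨q, o, h⟩
    refine ⟨mk q o k [], depth_mk q o k [], fun σ => ?_⟩
    rw [eval_mk]
    have hs := hist_spec q σ k [] (fun i hi => by simp at hi)
    exact h σ _ (by rw [hs.1]; simp) hs.2
  · rintro ⟨T, hT, h⟩
    refine ⟨qOf t T, oOf t T, fun σ l hl hc => ?_⟩
    rw [oOf_spec t T σ l (by omega) hc]
    exact h σ

theorem tsuff_mono {n : ℕ} {t : Fin n} {k l : ℕ} (h : k ≤ l) (hk : TSuff n t k) : TSuff n t l := by
  obtain ⟨T, hT, h'⟩ := hk
  exact ⟨T, hT.trans h, h'⟩

/-- The complexity of selection. -/
noncomputable def V (n : ℕ) (t : Fin n) : ℕ := sInf {k | Suff n t k}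

theorem V_le {n : ℕ} {t : Fin n} {k : ℕ} (h : TSuff n t k) : V n t ≤ k :=
  Nat.sInf_le ((suff_iff n t k).2 h)

end Pool.Agent.H78.SelU
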