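import Pool.Agent.H78.SelU.Basic

set_option autoImplicit false

/-! Tournament brackets: an upper bound for `V`. -/

namespace Pool.Agent.H78.SelU

open DT

variable {n : ℕ}

inductive Br (n : ℕ) : Type
  | nil : Br n
  | leaf : Fin n → Br n
  | node : Fin n → Br n → Br n → Br n

namespace Br

def champ : Br n → Option (Fin n)
  | nil => none
  | leaf a => some a
  | node w _ _ => some w

def elems : Br n → List (Fin n)
  | nil => []
  | leaf a => [a]
  | node _ l r => l.elems ++ r.elems

def height : Br n → ℕ
  | nil => 0
  | leaf _ => 0
  | node _ l r => max l.height r.height + 1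

/-- the bracket is correct for `σ` -/
def Valid (σ : Equiv.Perm (Fin n)) : Br n → Prop
  | nil => True
  | leaf _ => True
  | node w l r => l.Valid σ ∧ r.Valid σ ∧ w ∈ l.elems ++ r.elems ∧
      (∀ x ∈ l.elems ++ r.elems, σ w ≤ σ x) ∧ (l.champ = some w ∨ r.champ = some w)

theorem champ_none {B : Br n} (h : B.champ = none) : B = nil := by
  cases B <;> simp [champ] at h ⊢

theorem champ_spec (σ : Equiv.Perm (Fin n)) (B : Br n) (hB : B.Valid σ) (w : Fin n)
    (h : B.champ = some w) : w ∈ B.elems ∧ ∀ x ∈ B.elems, σ w ≤ σ x := by
  cases B with
  | nil => simp [champ] at h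
  | leaf a =>
    simp only [champ, Option.some.injEq] at h
    subst h
    simp [elems]
  | node v l r =>
    simp only [champ, Option.some.injEq] at h
    subst h
    exact ⟨hB.2.2.1, hB.2.2.2.1⟩

/-- merging two brackets -/
def merge (l r : Br n) : DT n (Br n) :=
  match l.champ, r.champ with
  | none, _ => ret r
  | some _, none => ret l
  | some a, some b => ask a b (ret (node a l r)) (ret (node b l r))

theorem merge_nil_left (r : Br n) : merge nil r = ret r := rfl

theorem merge_depth (l r : Br n) : (merge l r).depth ≤ 1 := by
  unfold merge
  split <;> simp [depth]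

theorem merge_depth_nil (l : Br n) : (merge l nil).depth = 0 := by
  unfold merge
  cases l <;> simp [champ, depth]

theorem merge_spec (σ : Equiv.Perm (Fin n)) (l r : Br n) (hl : l.Valid σ) (hr : r.Valid σ) :
    ((merge l r).eval σ).Valid σ ∧ ((merge l r).eval σ).elems = l.elems ++ r.elems := by
  unfold merge
  split
  · next h =>
    have := champ_none h
    subst this
    simp [eval, elems, hr]
  · next a h1 h2 =>
    have := champ_none h2
    subst this
    simp [eval, elems, hl]
  · next a b h1 h2 =>
    have sa := champ_spec σ l hl a h1
    have sb := champ_spec σ r hr b h2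
    simp only [eval]
    split_ifs with hc
    · refine ⟨⟨hl, hr, List.mem_append_left _ sa.1, ?_, Or.inl h1⟩, rfl⟩
      intro x hx
      rcases List.mem_append.1 hx with h | h
      · exact sa.2 x h
      · exact hc.le.trans (sb.2 x h)
    · refine ⟨⟨hl, hr, List.mem_append_right _ sb.1, ?_, Or.inr h2⟩, rfl⟩
      intro x hx
      rcases List.mem_append.1 hx with h | h
      · exact (not_lt.1 hc).trans (sa.2 x h)
      · exact sb.2 x h

theorem merge_outP_height (l r : Br n) (m : ℕ) (hl : l.height ≤ m) (hr : r.height ≤ m) :
    (merge l r).OutP (fun B => B.height ≤ m + 1) := by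
  unfold merge
  split
  · exact hr.trans (Nat.le_succ m)
  · exact hl.trans (Nat.le_succ m)
  · constructor
    · change (node _ l r).height ≤ m + 1
      simp only [height]
      omega
    · change (node _ l r).height ≤ m + 1
      simp only [height]
      omega

/-- remove the champion -/
def pop : Br n → DT n (Br n)
  | nil => ret nil
  | leaf _ => ret nil
  | node w l r =>
    if l.champ = some w then (pop l).bind (fun l' => merge l' r)
    else (pop r).bind (fun r' => merge l r')

theorem pop_outP (B : Br n) (m : ℕ) (h : B.height ≤ m) :
    (pop B).OutP (fun B' => B'.height ≤ m) := by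
  induction B generalizing m with
  | nil => simpa [pop, OutP] using h
  | leaf a => exact Nat.zero_le _
  | node w l r ihl ihr =>
    simp only [height] at h
    obtain ⟨m, rfl⟩ : ∃ m', m = m' + 1 := ⟨m - 1, by omega⟩
    unfold pop
    split_ifs
    · exact outP_bind _ _ _ _ (ihl m (by omega)) (fun l' hl' => merge_outP_height l' r m hl' (by omega))
    · exact outP_bind _ _ _ _ (ihr m (by omega)) (fun r' hr' => merge_outP_height l r' m (by omega) hr')

theorem pop_depth (B : Br n) : (pop B).depth ≤ B.height - 1 := by
  induction B with
  | nil => simp [pop, depth]
  | leaf a => simp [pop, depth]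
  | node w l r ihl ihr =>
    unfold pop
    split_ifs with hc
    · cases l with
      | nil => simp [champ] at hc
      | leaf a => simp [pop, DT.bind, merge_nil_left, depth]
      | node v l1 l2 =>
        have := depth_bind_le (pop (node v l1 l2)) (fun l' => merge l' r) (fun _ => True)
          (outP_true _) 1 (fun b _ => merge_depth b r)
        refine this.trans ?_
        have h2 : (node v l1 l2).height = max l1.height l2.height + 1 := rfl
        have h3 : (node w (node v l1 l2) r).height =
          max (node v l1 l2).height r.height + 1 := rfl
        omega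
    · cases r with
      | nil => simp [pop, DT.bind, merge_depth_nil]
      | leaf a => simp [pop, DT.bind, merge_depth_nil]
      | node v r1 r2 =>
        have := depth_bind_le (pop (node v r1 r2)) (fun r' => merge l r') (fun _ => True)
          (outP_true _) 1 (fun b _ => merge_depth l b)
        refine this.trans ?_
        have h2 : (node v r1 r2).height = max r1.height r2.height + 1 := rfl
        have h3 : (node w l (node v r1 r2)).height =
          max l.height (node v r1 r2).height + 1 := rfl
        omega

theorem pop_spec (σ : Equiv.Perm (Fin n)) (B : Br n) (hB : B.Valid σ) (w : Fin n)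
    (h : B.champ = some w) :
    ((pop B).eval σ).Valid σ ∧ (w :: ((pop B).eval σ).elems).Perm B.elems := by
  induction B with
  | nil => simp [champ] at h
  | leaf a =>
    simp only [champ, Option.some.injEq] at h
    subst h
    simp [pop, eval, elems, Valid]
  | node v l r ihl ihr =>
    simp only [champ, Option.some.injEq] at h
    subst h
    obtain ⟨hl, hr, hm, hmin, hor⟩ := hB
    unfold pop
    split_ifs with hc
    · rw [eval_bind]
      have h1 := ihl hl hc
      have h2 := merge_spec σ ((pop l).eval σ) r h1.1 hr
      refine ⟨h2.1, ?_⟩
      rw [h2.2]
      exact h1.2.append_right r.elems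
    · rw [eval_bind]
      have hc' := hor.resolve_left hc
      have h1 := ihr hr hc'
      have h2 := merge_spec σ l ((pop r).eval σ) hl h1.1
      refine ⟨h2.1, ?_⟩
      rw [h2.2]
      have : (v :: (l.elems ++ ((pop r).eval σ).elems)).Perm
          (l.elems ++ (v :: ((pop r).eval σ).elems)) := List.perm_middle.symm
      exact this.trans (h1.2.append_left l.elems)

/-- build a bracket -/
def build : ℕ → List (Fin n) → DT n (Br n)
  | 0, xs => match xs with
    | [] => ret nil
    | a :: _ => ret (leaf a)
  | m + 1, xs => (build m (xs.take (2 ^ m))).bind
      (fun l => (build m (xs.drop (2 ^ m))).bind (fun r => merge l r))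

theorem build_height (m : ℕ) (xs : List (Fin n)) :
    (build m xs).OutP (fun B => B.height ≤ m) := by
  induction m generalizing xs with
  | zero => cases xs <;> exact le_refl _
  | succ m ih =>
    unfold build
    exact outP_bind _ _ _ _ (ih _) (fun l hl =>
      outP_bind _ _ _ _ (ih _) (fun r hr => merge_outP_height l r m hl hr))

theorem build_nil (m : ℕ) : build m ([] : List (Fin n)) = ret nil := by
  induction m with
  | zero => rfl
  | succ m ih =>
    unfold build
    rw [List.take_nil, List.drop_nil, ih]
    rfl

theorem build_depth (m : ℕ) (xs : List (Fin n)) : (build m xs).depth ≤ xs.length - 1 := by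
  induction m generalizing xs with
  | zero => cases xs <;> simp [build, depth]
  | succ m ih =>
    unfold build
    by_cases hd : xs.drop (2 ^ m) = []
    · rw [hd, build_nil]
      have := depth_bind_le (build m (xs.take (2 ^ m)))
        (fun l => (DT.ret nil : DT n (Br n)).bind (fun r => merge l r)) (fun _ => True)
        (outP_true _) 0 (fun b _ => by simp [DT.bind, merge_depth_nil])
      refine this.trans ?_
      have h1 := ih (xs.take (2 ^ m))
      have h2 : (xs.take (2 ^ m)).length ≤ xs.length := by simp
      omega
    · have hp : 0 < (xs.drop (2 ^ m)).length := List.length_pos_iff.2 hd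
      have hp2 : 0 < (xs.take (2 ^ m)).length := by
        have : 0 < 2 ^ m := Nat.pos_of_ne_zero (by positivity)
        simp only [List.length_drop] at hp
        simp only [List.length_take]
        omega
      have h3 : (xs.take (2 ^ m)).length + (xs.drop (2 ^ m)).length = xs.length := by
        rw [← List.length_append, List.take_append_drop]
      have h1 := ih (xs.take (2 ^ m))
      have h2 := ih (xs.drop (2 ^ m))
      have := depth_bind_le (build m (xs.take (2 ^ m)))
        (fun l => (build m (xs.drop (2 ^ m))).bind (fun r => merge l r)) (fun _ => True)
        (outP_true _) ((xs.drop (2 ^ m)).length - 1 + 1) (fun l _ => by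
          have := depth_bind_le (build m (xs.drop (2 ^ m))) (fun r => merge l r) (fun _ => True)
            (outP_true _) 1 (fun r _ => merge_depth l r)
          omega)
      refine this.trans ?_
      omega

theorem build_spec (σ : Equiv.Perm (Fin n)) (m : ℕ) (xs : List (Fin n)) (h : xs.length ≤ 2 ^ m) :
    ((build m xs).eval σ).Valid σ ∧ ((build m xs).eval σ).elems = xs := by
  induction m generalizing xs with
  | zero =>
    cases xs with
    | nil => simp [build, eval, Valid, elems]
    | cons a l =>
      simp only [List.length_cons, pow_zero] at h
      have : l = [] := List.length_eq_zero_iff.1 (by omega)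
      subst this
      simp [build, eval, Valid, elems]
  | succ m ih =>
    unfold build
    have h1 := ih (xs.take (2 ^ m)) (by simp)
    have h2 := ih (xs.drop (2 ^ m)) (by
      rw [List.length_drop]
      rw [pow_succ] at h
      omega)
    rw [eval_bind, eval_bind]
    have h3 := merge_spec σ _ _ h1.1 h2.1
    refine ⟨h3.1, ?_⟩
    rw [h3.2, h1.2, h2.2, List.take_append_drop]

/-- `j`-fold removal of the champion -/
def pops : ℕ → Br n → DT n (Br n)
  | 0, B => ret B
  | j + 1, B => (pop B).bind (fun B' => pops j B')

theorem pops_depth (j m : ℕ) (B : Br n) (h : B.height ≤ m) : (pops j B).depth ≤ j * (m - 1) := by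
  induction j generalizing B with
  | zero => simp [pops, depth]
  | succ j ih =>
    unfold pops
    have := depth_bind_le (pop B) (fun B' => pops j B') (fun B' => B'.height ≤ m)
      (pop_outP B m h) (j * (m - 1)) (fun b hb => ih b hb)
    have h2 := pop_depth B
    have h3 : (j + 1) * (m - 1) = j * (m - 1) + (m - 1) := by ring
    omega

theorem pops_spec (σ : Equiv.Perm (Fin n)) (j i : ℕ) (B : Br n) (hB : B.Valid σ)
    (hn : B.elems.Nodup) (he : ∀ x, x ∈ B.elems ↔ i ≤ (σ x).val) (hji : i + j < n) :
    ∃ w, ((pops j B).eval σ).champ = some w ∧ (σ w).val = i + j := by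
  induction j generalizing B i with
  | zero =>
    change ∃ w, B.champ = some w ∧ (σ w).val = i + 0
    have hin : i < n := by omega
    set y := σ.symm ⟨i, hin⟩ with hy
    have hyB : y ∈ B.elems := (he y).2 (by simp [hy])
    cases hc : B.champ with
    | none =>
      have := champ_none hc
      subst this
      simp [elems] at hyB
    | some w =>
      have hs := champ_spec σ B hB w hc
      refine ⟨w, rfl, ?_⟩
      have h1 := (he w).1 hs.1
      have h2 := hs.2 y hyB
      have h3 : (σ w).val ≤ (σ y).val := h2
      have h4 : (σ y).val = i := by simp [hy]
      omega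
  | succ j ih =>
    unfold pops
    rw [eval_bind]
    have hin : i < n := by omega
    set y := σ.symm ⟨i, hin⟩ with hy
    have hyB : y ∈ B.elems := (he y).2 (by simp [hy])
    cases hc : B.champ with
    | none =>
      have := champ_none hc
      subst this
      simp [elems] at hyB
    | some w =>
      have hs := champ_spec σ B hB w hc
      have h1 := (he w).1 hs.1
      have h2 := hs.2 y hyB
      have h3 : (σ w).val ≤ (σ y).val := h2
      have h4 : (σ y).val = i := by simp [hy]
      have hw : (σ w).val = i := by omega
      have hp := pop_spec σ B hB w hc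
      have hnd : (w :: ((pop B).eval σ).elems).Nodup := hp.2.nodup_iff.2 hn
      have := ih (i + 1) ((pop B).eval σ) hp.1 (List.nodup_cons.1 hnd).2 ?_ (by omega)
      · obtain ⟨v, hv1, hv2⟩ := this
        exact ⟨v, hv1, by omega⟩
      · intro x
        constructor
        · intro hx
          have hxw : x ≠ w := by
            rintro rfl
            exact (List.nodup_cons.1 hnd).1 hx
          have hxB : x ∈ B.elems := hp.2.mem_iff.1 (List.mem_cons_of_mem _ hx)
          have h5 := (he x).1 hxB
          have h6 : (σ x).val ≠ i := by
            intro h
            apply hxw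
            apply σ.injective
            apply Fin.ext
            rw [h, hw]
          omega
        · intro hx
          have hxB : x ∈ B.elems := (he x).2 (by omega)
          have := hp.2.mem_iff.2 hxB
          rcases List.mem_cons.1 this with h | h
          · subst h
            omega
          · exact h

end Br

open Br

/-- the upper bound by the tournament method -/
theorem tsuff_tournament (n : ℕ) (t : Fin n) :
    TSuff n t (n - 1 + t.val * (Nat.clog 2 n - 1)) := by
  set m := Nat.clog 2 n with hm
  set T : DT n (Fin n) := ((build m (List.finRange n)).bind (fun B => pops t.val B)).map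
    (fun B => B.champ.getD t) with hT
  refine ⟨T, ?_, ?_⟩
  · rw [hT, depth_map]
    have h1 := depth_bind_le (build m (List.finRange n)) (fun B => pops t.val B)
      (fun B => B.height ≤ m) (build_height m _) (t.val * (m - 1))
      (fun b hb => pops_depth t.val m b hb)
    have h2 := build_depth m (List.finRange n)
    rw [List.length_finRange] at h2
    omega
  · intro σ
    rw [hT, eval_map, eval_bind]
    have hb := build_spec σ m (List.finRange n) (by
      rw [List.length_finRange]
      exact Nat.le_pow_clog (by norm_num) n)
    obtain ⟨w, hw1, hw2⟩ := pops_spec σ t.val 0 ((build m (List.finRange n)).eval σ) hb.1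
      (by rw [hb.2]; exact List.nodup_finRange n) (fun x => by rw [hb.2]; simp) (by omega)
    rw [hw1]
    apply Fin.ext
    simpa using hw2

end Pool.Agent.H78.SelU
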