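import Pool.Agent.H78.SelU.Dummy
import Pool.Agent.H78.SelU.Bracket

set_option autoImplicit false

/-! Counting the failures of `V n t ≤ V n (t+1)`. -/

namespace Pool.Agent.H78.SelU

open DT

/-- reversing all comparisons -/
def flip {n : ℕ} : DT n (Fin n) → DT n (Fin n)
  | ret b => ret b
  | ask x y a b => ask y x (flip a) (flip b)

theorem depth_flip {n : ℕ} (T : DT n (Fin n)) : (flip T).depth = T.depth := by
  induction T with
  | ret b => rfl
  | ask x y a b iha ihb => simp [flip, depth, iha, ihb]

theorem eval_flip {n : ℕ} (σ : Equiv.Perm (Fin n)) (T : DT n (Fin n)) :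
    (flip T).eval σ = T.eval (σ.trans Fin.revPerm) := by
  induction T with
  | ret b => rfl
  | ask x y a b iha ihb =>
    simp only [flip, eval, Equiv.trans_apply, Fin.revPerm_apply, Fin.rev_lt_rev, iha, ihb]

theorem tsuff_rev {n : ℕ} (t : Fin n) (k : ℕ) (h : TSuff n t k) : TSuff n t.rev k := by
  obtain ⟨T, hT, hs⟩ := h
  refine ⟨flip T, by rw [depth_flip]; exact hT, fun σ => ?_⟩
  rw [eval_flip]
  have := hs (σ.trans Fin.revPerm)
  simp only [Equiv.trans_apply, Fin.revPerm_apply] at this
  rw [← this, Fin.rev_rev]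

theorem V_spec {n : ℕ} (t : Fin n) : TSuff n t (V n t) := by
  rw [← suff_iff]
  exact Nat.sInf_mem (s := {k | Suff n t k}) ⟨_, (suff_iff n t _).2 (tsuff_tournament n t)⟩

theorem V_rev {n : ℕ} (t : Fin n) : V n t.rev = V n t := by
  apply le_antisymm
  · exact V_le (tsuff_rev t _ (V_spec t))
  · have := V_le (tsuff_rev t.rev _ (V_spec t.rev))
    rwa [Fin.rev_rev] at this

theorem V_upper (n : ℕ) (t : Fin n) : V n t ≤ n - 1 + t.val * (Nat.clog 2 n - 1) :=
  V_le (tsuff_tournament n t)

theorem V_castSucc {n : ℕ} (t : Fin n) : V n t + 1 ≤ V (n + 1) t.castSucc := by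
  have h := V_spec t.castSucc
  rw [← Fin.succAbove_last_apply] at h
  obtain ⟨h1, h2⟩ := tsuff_dummy (Fin.last n) extreme_last t _ h
  have := V_le h2
  rw [← Fin.succAbove_last_apply]
  omega

theorem V_succ {n : ℕ} (t : Fin n) : V n t + 1 ≤ V (n + 1) t.succ := by
  have h := V_spec t.succ
  rw [← Fin.succAbove_zero_apply] at h
  obtain ⟨h1, h2⟩ := tsuff_dummy (0 : Fin (n + 1)) extreme_zero t _ h
  have := V_le h2
  rw [← Fin.succAbove_zero_apply]
  omega

/-- total version -/
noncomputable def W (t n : ℕ) : ℕ := if h : t < n then V n ⟨t, h⟩ else 0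

theorem W_eq {t n : ℕ} (h : t < n) : W t n = V n ⟨t, h⟩ := by
  unfold W
  rw [dif_pos h]

theorem W_row {t n : ℕ} (h : t < n) : W t n + 1 ≤ W t (n + 1) := by
  rw [W_eq h, W_eq (Nat.lt_succ_of_lt h)]
  exact V_castSucc ⟨t, h⟩

theorem W_diag {t n : ℕ} (h : t < n) : W t n + 1 ≤ W (t + 1) (n + 1) := by
  rw [W_eq h, W_eq (Nat.succ_lt_succ h)]
  exact V_succ ⟨t, h⟩

theorem W_upper {t n : ℕ} (h : t < n) : W t n ≤ n - 1 + t * (Nat.clog 2 n - 1) := by
  rw [W_eq h]
  exact V_upper n ⟨t, h⟩

theorem W_base (t : ℕ) : t ≤ W t (t + 1) := by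
  induction t with
  | zero => exact Nat.zero_le _
  | succ t ih =>
    have := W_diag (show t < t + 1 by omega)
    omega

/-- the numbers `n` at which `V_t(n) ≤ V_{t+1}(n)` fails -/
noncomputable def E (t N : ℕ) : Finset ℕ := (Finset.Ioc (t + 1) N).filter (fun n => W (t + 1) n < W t n)

theorem E_lower (t N : ℕ) (h : t + 1 ≤ N) : N - 1 + (E t N).card ≤ W t N := by
  induction N, h using Nat.le_induction with
  | base =>
    have : E t (t + 1) = ∅ := by
      unfold E
      simp
    rw [this]
    simpa using W_base t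
  | succ N hN ih =>
    have hs : E t (N + 1) ⊆ insert (N + 1) (E t N) := by
      intro n hn
      unfold E at hn ⊢
      simp only [Finset.mem_filter, Finset.mem_Ioc, Finset.mem_insert] at hn ⊢
      rcases Nat.lt_or_ge N n with h1 | h1
      · left; omega
      · right; exact ⟨⟨hn.1.1, h1⟩, hn.2⟩
    have hr := W_row (show t < N by omega)
    by_cases hm : N + 1 ∈ E t (N + 1)
    · have hlt : W (t + 1) (N + 1) < W t (N + 1) := by
        unfold E at hm
        exact (Finset.mem_filter.1 hm).2
      have hd := W_diag (show t < N by omega)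
      have hc := (Finset.card_le_card hs).trans (Finset.card_insert_le _ _)
      omega
    · have hs' : E t (N + 1) ⊆ E t N := by
        intro n hn
        rcases Finset.mem_insert.1 (hs hn) with h1 | h1
        · subst h1
          exact absurd hn hm
        · exact h1
      have hc := Finset.card_le_card hs'
      omega

theorem E_card (t N : ℕ) : (E t N).card ≤ t * (Nat.clog 2 N - 1) := by
  rcases Nat.lt_or_ge N (t + 1) with h | h
  · have : E t N = ∅ := by
      unfold E
      rw [Finset.Ioc_eq_empty (by omega)]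
      rfl
    rw [this]
    simp
  · have h1 := E_lower t N h
    have h2 := W_upper (show t < N by omega)
    omega

/-- the first `k` terms are nondecreasing and the last `k` terms nonincreasing -/
def GoodK (k n : ℕ) : Prop := ∀ a b : Fin n, (a ≤ b → b.val < k → V n a ≤ V n b) ∧
  (a ≤ b → n ≤ a.val + k → V n b ≤ V n a)

theorem W_mono_of {k n : ℕ} (h : ∀ t, t + 1 < k → t + 1 < n → W t n ≤ W (t + 1) n) (a b : ℕ)
    (hab : a ≤ b) (hk : b < k) (hn : b < n) : W a n ≤ W b n := by
  induction b, hab using Nat.le_induction with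
  | base => exact le_refl _
  | succ b hb ih => exact (ih (by omega) (by omega)).trans (h b hk hn)

theorem good_of {k n : ℕ} (h : ∀ t, t + 1 < k → t + 1 < n → W t n ≤ W (t + 1) n) : GoodK k n := by
  intro a b
  constructor
  · intro hab hk
    have := W_mono_of h a.val b.val hab hk b.isLt
    rwa [W_eq a.isLt, W_eq b.isLt] at this
  · intro hab hk
    rw [← V_rev a, ← V_rev b]
    have h1 : b.rev.val ≤ a.rev.val := by
      simp only [Fin.val_rev]
      have : a.val ≤ b.val := hab
      omega
    have := W_mono_of h b.rev.val a.rev.val h1 (by simp only [Fin.val_rev]; omega) a.rev.isLt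
    rwa [W_eq a.rev.isLt, W_eq b.rev.isLt] at this

open Classical in
theorem bad_card (k N : ℕ) :
    ((Finset.range (N + 1)).filter (fun n => ¬ GoodK k n)).card ≤
      (k - 1) * (k - 2) / 2 * (Nat.clog 2 N - 1) := by
  have hsub : (Finset.range (N + 1)).filter (fun n => ¬ GoodK k n) ⊆
      (Finset.range (k - 1)).biUnion (fun t => E t N) := by
    intro n hn
    rw [Finset.mem_filter, Finset.mem_range] at hn
    have : ∃ t, t + 1 < k ∧ t + 1 < n ∧ W (t + 1) n < W t n := by
      by_contra hcon
      apply hn.2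
      apply good_of
      intro t h1 h2
      by_contra h3
      exact hcon ⟨t, h1, h2, not_le.1 h3⟩
    obtain ⟨t, h1, h2, h3⟩ := this
    rw [Finset.mem_biUnion]
    refine ⟨t, Finset.mem_range.2 (by omega), ?_⟩
    unfold E
    rw [Finset.mem_filter, Finset.mem_Ioc]
    exact ⟨⟨h2, by omega⟩, h3⟩
  refine (Finset.card_le_card hsub).trans (Finset.card_biUnion_le.trans ?_)
  refine (Finset.sum_le_sum (fun t _ => E_card t N)).trans ?_
  rw [← Finset.sum_mul, Finset.sum_range_id]
  rfl

end Pool.Agent.H78.SelU
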