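import Pool.Agent.H78.SelU.Count

set_option autoImplicit false

/-! Density one. -/

namespace Pool.Agent.H78.SelU

open Filter Topology

theorem goodK_mono {k l n : ℕ} (h : k ≤ l) (hl : GoodK l n) : GoodK k n := by
  intro a b
  have := hl a b
  exact ⟨fun h1 h2 => this.1 h1 (by omega), fun h1 h2 => this.2 h1 (by omega)⟩

open Classical in
theorem bad_card_var (k : ℕ → ℕ) (hk : Monotone k) (N : ℕ) :
    ((Finset.range (N + 1)).filter (fun n => ¬ GoodK (k n) n)).card ≤
      (k N - 1) * (k N - 2) / 2 * (Nat.clog 2 N - 1) := by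
  refine le_trans (Finset.card_le_card ?_) (bad_card (k N) N)
  intro n hn
  rw [Finset.mem_filter, Finset.mem_range] at hn ⊢
  exact ⟨hn.1, fun h => hn.2 (goodK_mono (hk (by omega)) h)⟩

theorem clog_le_log (N : ℕ) (hN : 1 ≤ N) : ((Nat.clog 2 N - 1 : ℕ) : ℝ) ≤ Real.log N / Real.log 2 := by
  have hlog2 : 0 < Real.log 2 := Real.log_pos (by norm_num)
  rcases Nat.eq_zero_or_pos (Nat.clog 2 N) with h | h
  · rw [h]
    simp only [Nat.zero_sub, Nat.cast_zero]
    exact div_nonneg (Real.log_nonneg (by exact_mod_cast hN)) hlog2.le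
  · have h1 : 2 ^ (Nat.clog 2 N - 1) < N := by
      have : Nat.clog 2 N - 1 < Nat.clog 2 N := by omega
      exact (Nat.lt_clog_iff_pow_lt (by norm_num)).1 this
    rw [le_div_iff₀ hlog2, ← Real.log_pow]
    apply Real.log_le_log (by positivity)
    exact_mod_cast h1.le

open Classical in
theorem density (k : ℕ → ℕ) (hk : Monotone k)
    (hlim : Tendsto (fun n : ℕ => (k n : ℝ) ^ 2 * Real.log n / n) atTop (𝓝 0)) :
    Tendsto (fun N : ℕ => (((Finset.range (N + 1)).filter (fun n => ¬ GoodK (k n) n)).card : ℝ) / N)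
      atTop (𝓝 0) := by
  have hlog2 : 0 < Real.log 2 := Real.log_pos (by norm_num)
  have h2 : Tendsto (fun n : ℕ => ((k n : ℝ) ^ 2 * Real.log n / n) / Real.log 2) atTop (𝓝 0) := by
    simpa using hlim.div_const (Real.log 2)
  refine squeeze_zero' (Eventually.of_forall (fun N => by positivity)) ?_ h2
  filter_upwards [eventually_ge_atTop 1] with N hN
  have h3 := bad_card_var k hk N
  have h4 : (((k N - 1) * (k N - 2) / 2 * (Nat.clog 2 N - 1) : ℕ) : ℝ) ≤
      (k N : ℝ) ^ 2 * (Real.log N / Real.log 2) := by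
    rw [Nat.cast_mul]
    refine mul_le_mul ?_ (clog_le_log N hN) (by positivity) (by positivity)
    have : (k N - 1) * (k N - 2) / 2 ≤ k N ^ 2 := by
      refine (Nat.div_le_self _ _).trans ?_
      rw [pow_two]
      exact Nat.mul_le_mul (Nat.sub_le _ _) (Nat.sub_le _ _)
    exact_mod_cast this
  have h5 : (((Finset.range (N + 1)).filter (fun n => ¬ GoodK (k n) n)).card : ℝ) ≤
      (k N : ℝ) ^ 2 * (Real.log N / Real.log 2) := le_trans (by exact_mod_cast h3) h4
  have hNpos : (0 : ℝ) < N := by exact_mod_cast hN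
  calc (((Finset.range (N + 1)).filter (fun n => ¬ GoodK (k n) n)).card : ℝ) / N
      ≤ ((k N : ℝ) ^ 2 * (Real.log N / Real.log 2)) / N := by gcongr
    _ = ((k N : ℝ) ^ 2 * Real.log N / N) / Real.log 2 := by ring

end Pool.Agent.H78.SelU
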