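import Pool.Agent.H78.SelU.Density

set_option autoImplicit false

/-! Density one, for functions that need not be monotone. -/

namespace Pool.Agent.H78.SelU

open Filter Topology

/-- running maximum -/
def run (k : ℕ → ℕ) (N : ℕ) : ℕ := (Finset.range (N + 1)).sup k

theorem run_mono (k : ℕ → ℕ) : Monotone (run k) := by
  intro a b h
  unfold run
  apply Finset.sup_mono
  intro x hx
  rw [Finset.mem_range] at hx ⊢
  omega

theorem le_run (k : ℕ → ℕ) (n : ℕ) : k n ≤ run k n := by
  unfold run
  exact Finset.le_sup (f := k) (Finset.mem_range.2 (Nat.lt_succ_self n))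

theorem run_attained (k : ℕ → ℕ) (N : ℕ) : ∃ n, n ≤ N ∧ run k N = k n := by
  unfold run
  obtain ⟨n, hn, h⟩ := Finset.exists_mem_eq_sup (Finset.range (N + 1)) ⟨0, by simp⟩ k
  exact ⟨n, by rw [Finset.mem_range] at hn; omega, h⟩

theorem run_lim (k : ℕ → ℕ)
    (hlim : Tendsto (fun n : ℕ => (k n : ℝ) ^ 2 * Real.log n / n) atTop (𝓝 0)) :
    Tendsto (fun n : ℕ => (run k n : ℝ) ^ 2 * Real.log n / n) atTop (𝓝 0) := by
  rw [Metric.tendsto_atTop] at hlim ⊢
  intro ε hε
  obtain ⟨n1, hn1⟩ := hlim (ε / 2) (by positivity)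
  set n0 := max n1 3 with hn0
  have hC : Tendsto (fun n : ℕ => (run k n0 : ℝ) ^ 2 * (Real.log n / n)) atTop (𝓝 0) := by
    have h1 : Tendsto (fun x : ℝ => Real.log x / x) atTop (𝓝 0) := by
      have := Real.isLittleO_log_id_atTop
      exact this.tendsto_div_nhds_zero
    have h2 := (h1.comp tendsto_natCast_atTop_atTop).const_mul ((run k n0 : ℝ) ^ 2)
    simpa using h2
  rw [Metric.tendsto_atTop] at hC
  obtain ⟨n2, hn2⟩ := hC ε hε
  refine ⟨max n0 n2, fun N hN => ?_⟩
  have hN0 : n0 ≤ N := (le_max_left _ _).trans hN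
  have hN2 : n2 ≤ N := (le_max_right _ _).trans hN
  have hN3 : 3 ≤ N := (le_max_right _ _).trans hN0
  have hNpos : (0 : ℝ) < N := by exact_mod_cast (by omega : 0 < N)
  have hlogN : 0 < Real.log N := Real.log_pos (by exact_mod_cast (by omega : 1 < N))
  rw [Real.dist_eq, sub_zero, abs_of_nonneg (by positivity)]
  obtain ⟨n, hn, hrn⟩ := run_attained k N
  rw [hrn]
  rcases Nat.lt_or_ge n n0 with h | h
  · have h1 : k n ≤ run k n0 := (le_run k n).trans (run_mono k h.le)
    have h2 := hn2 N hN2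
    rw [Real.dist_eq, sub_zero, abs_of_nonneg (by positivity)] at h2
    refine lt_of_le_of_lt ?_ h2
    rw [mul_div_assoc]
    have h3 : (k n : ℝ) ≤ (run k n0 : ℝ) := by exact_mod_cast h1
    gcongr
  · have h1 := hn1 n ((le_max_left _ _).trans h)
    have hn3 : 3 ≤ n := (le_max_right _ _).trans h
    have hnpos : (0 : ℝ) < n := by exact_mod_cast (by omega : 0 < n)
    have hlogn : 0 < Real.log n := Real.log_pos (by exact_mod_cast (by omega : 1 < n))
    rw [Real.dist_eq, sub_zero, abs_of_nonneg (by positivity)] at h1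
    have hexp : Real.exp 1 ≤ n := by
      have := Real.exp_one_lt_d9
      have h3 : (3 : ℝ) ≤ n := by exact_mod_cast hn3
      linarith
    have hexp2 : Real.exp 1 ≤ N := by
      have : (n : ℝ) ≤ N := by exact_mod_cast hn
      linarith
    have hanti := Real.log_div_self_antitoneOn hexp hexp2 (by exact_mod_cast hn : (n : ℝ) ≤ N)
    simp only at hanti
    calc (k n : ℝ) ^ 2 * Real.log N / N = (k n : ℝ) ^ 2 * (Real.log N / N) := by ring
      _ ≤ (k n : ℝ) ^ 2 * (Real.log n / n) := by gcongr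
      _ = (k n : ℝ) ^ 2 * Real.log n / n := by ring
      _ < ε := by linarith

open Classical in
theorem density_all (k : ℕ → ℕ)
    (hlim : Tendsto (fun n : ℕ => (k n : ℝ) ^ 2 * Real.log n / n) atTop (𝓝 0)) :
    Tendsto (fun N : ℕ => (((Finset.range (N + 1)).filter (fun n => ¬ GoodK (k n) n)).card : ℝ) / N)
      atTop (𝓝 0) := by
  refine squeeze_zero (fun N => by positivity) (fun N => ?_) (density (run k) (run_mono k) (run_lim k hlim))
  have : ((Finset.range (N + 1)).filter (fun n => ¬ GoodK (k n) n)).card ≤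
      ((Finset.range (N + 1)).filter (fun n => ¬ GoodK (run k n) n)).card := by
    apply Finset.card_le_card
    intro n hn
    rw [Finset.mem_filter] at hn ⊢
    exact ⟨hn.1, fun h => hn.2 (goodK_mono (le_run k n) h)⟩
  gcongr

end Pool.Agent.H78.SelU
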