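import Pool.Agent.H78.SelU.Basic

set_option autoImplicit false

/-! One dummy element: `V n t + 1 ≤ V (n+1) (p.succAbove t)` for `p ∈ {0, last}`. -/

namespace Pool.Agent.H78.SelU

open DT

variable {n : ℕ}

/-- Extend a permutation of `Fin n` by sending the new element `d` to `p`. -/
def ext (d p : Fin (n + 1)) (σ : Equiv.Perm (Fin n)) : Equiv.Perm (Fin (n + 1)) :=
  (finSuccEquiv' d).trans ((Equiv.optionCongr σ).trans (finSuccEquiv' p).symm)

theorem ext_self (d p : Fin (n + 1)) (σ : Equiv.Perm (Fin n)) : ext d p σ d = p := by
  simp [ext]

theorem ext_succAbove (d p : Fin (n + 1)) (σ : Equiv.Perm (Fin n)) (i : Fin n) :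
    ext d p σ (d.succAbove i) = p.succAbove (σ i) := by
  simp [ext]

/-- an extreme value `p` -/
def Extreme (p : Fin (n + 1)) : Prop := (∀ i : Fin (n + 1), i ≤ p) ∨ (∀ i : Fin (n + 1), p ≤ i)

/-- is the comparison `d < y` (for `y ≠ d`) true? -/
noncomputable def lowP (p : Fin (n + 1)) : Prop := ∀ i : Fin (n + 1), p ≤ i

open Classical in
/-- the pruned tree -/
noncomputable def red (d p : Fin (n + 1)) (z : Fin n) : DT (n + 1) (Fin (n + 1)) → DT n (Fin (n + 1))
  | ret b => ret b
  | ask x y a b =>
    if x = d then
      if y = d then red d p z b
      else if lowP p then red d p z a else red d p z b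
    else
      if y = d then (if lowP p then red d p z b else red d p z a)
      else ask ((finSuccEquiv' d x).getD z) ((finSuccEquiv' d y).getD z) (red d p z a) (red d p z b)

theorem getD_spec (d : Fin (n + 1)) (z : Fin n) (x : Fin (n + 1)) (hx : x ≠ d) :
    d.succAbove ((finSuccEquiv' d x).getD z) = x := by
  obtain ⟨i, rfl⟩ := Fin.exists_succAbove_eq hx
  simp

theorem depth_red (d p : Fin (n + 1)) (z : Fin n) (T : DT (n + 1) (Fin (n + 1))) :
    (red d p z T).depth ≤ T.depth := by
  induction T with
  | ret b => simp [red, depth]
  | ask x y a b iha ihb =>
    unfold red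
    split_ifs <;> simp only [depth] <;> omega

theorem depth_red_first (d p : Fin (n + 1)) (z : Fin n) (y : Fin (n + 1))
    (a b : DT (n + 1) (Fin (n + 1))) :
    (red d p z (ask d y a b)).depth + 1 ≤ (ask d y a b).depth := by
  have h1 := depth_red d p z a
  have h2 := depth_red d p z b
  unfold red
  rw [if_pos rfl]
  split_ifs <;> simp only [depth] <;> omega

theorem eval_red (d p : Fin (n + 1)) (hp : Extreme p) (z : Fin n) (σ : Equiv.Perm (Fin n))
    (T : DT (n + 1) (Fin (n + 1))) : (red d p z T).eval σ = T.eval (ext d p σ) := by
  induction T with
  | ret b => rfl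
  | ask x y a b iha ihb =>
    unfold red
    by_cases hx : x = d
    · rw [if_pos hx]
      by_cases hy : y = d
      · rw [if_pos hy]
        simp only [eval, hx, hy, lt_irrefl, if_false]
        exact ihb
      · rw [if_neg hy]
        have hne : ext d p σ y ≠ p := by
          intro h
          exact hy ((ext d p σ).injective (h.trans (ext_self d p σ).symm))
        by_cases hl : lowP p
        · rw [if_pos hl]
          have : ext d p σ x < ext d p σ y := by
            rw [hx, ext_self]
            exact lt_of_le_of_ne (hl _) (Ne.symm hne)
          simp only [eval, if_pos this]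
          exact iha
        · rw [if_neg hl]
          have hh : ∀ i : Fin (n + 1), i ≤ p := by
            rcases hp with h | h
            · exact h
            · exact absurd h hl
          have : ¬ ext d p σ x < ext d p σ y := by
            rw [hx, ext_self]
            exact not_lt.2 (hh _)
          simp only [eval, if_neg this]
          exact ihb
    · rw [if_neg hx]
      by_cases hy : y = d
      · rw [if_pos hy]
        have hne : ext d p σ x ≠ p := by
          intro h
          exact hx ((ext d p σ).injective (h.trans (ext_self d p σ).symm))
        by_cases hl : lowP p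
        · rw [if_pos hl]
          have : ¬ ext d p σ x < ext d p σ y := by
            rw [hy, ext_self]
            exact not_lt.2 (hl _)
          simp only [eval, if_neg this]
          exact ihb
        · rw [if_neg hl]
          have hh : ∀ i : Fin (n + 1), i ≤ p := by
            rcases hp with h | h
            · exact h
            · exact absurd h hl
          have : ext d p σ x < ext d p σ y := by
            rw [hy, ext_self]
            exact lt_of_le_of_ne (hh _) hne
          simp only [eval, if_pos this]
          exact iha
      · rw [if_neg hy]
        have ex : ext d p σ x = p.succAbove (σ ((finSuccEquiv' d x).getD z)) := by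
          conv_lhs => rw [← getD_spec d z x hx]
          exact ext_succAbove d p σ _
        have ey : ext d p σ y = p.succAbove (σ ((finSuccEquiv' d y).getD z)) := by
          conv_lhs => rw [← getD_spec d z y hy]
          exact ext_succAbove d p σ _
        simp only [eval, ex, ey, Fin.succAbove_lt_succAbove_iff]
        split_ifs
        · exact iha
        · exact ihb

/-- from `n+1` elements to `n` elements, saving a comparison -/
theorem tsuff_dummy (p : Fin (n + 1)) (hp : Extreme p) (t : Fin n) (k : ℕ)
    (h : TSuff (n + 1) (p.succAbove t) k) : 1 ≤ k ∧ TSuff n t (k - 1) := by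
  obtain ⟨T, hT, hs⟩ := h
  cases T with
  | ret b =>
    exfalso
    have h1 := hs 1
    have h2 := hs (Equiv.swap b p)
    simp only [eval, Equiv.Perm.coe_one, id_eq] at h1
    simp only [eval, Equiv.swap_apply_left] at h2
    exact Fin.succAbove_ne p t h2.symm
  | ask d y a b =>
    have h1 : 1 ≤ k := by
      simp only [depth] at hT
      omega
    refine ⟨h1, (red d p t (ask d y a b)).map (fun o => (finSuccEquiv' d o).getD t), ?_, ?_⟩
    · rw [depth_map]
      have := depth_red_first d p t y a b
      omega
    · intro σ
      rw [eval_map, eval_red d p hp]
      set o := (ask d y a b).eval (ext d p σ) with ho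
      have hso := hs (ext d p σ)
      rw [← ho] at hso
      have hod : o ≠ d := by
        intro h
        rw [h, ext_self] at hso
        exact Fin.succAbove_ne p t hso.symm
      have := getD_spec d t o hod
      rw [← this, ext_succAbove] at hso
      exact Fin.succAbove_right_injective hso

theorem extreme_zero : Extreme (0 : Fin (n + 1)) := Or.inr (fun i => Fin.zero_le i)

theorem extreme_last : Extreme (Fin.last n) := Or.inl (fun i => Fin.le_last i)

end Pool.Agent.H78.SelU
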